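import Pool.Agent.Work.MP_db9399_bg.Interface
import Pool.Agent.Work.MP_db9399_mad_helper46.EXPD
import Pool.Agent.Work.MP_db9399_mad_helper46.GG
import Pool.Agent.Work.MP_db9399_mad_helper75.LIFT
import Pool.Agent.Work.MP_db9399_mad_helper59.BLOW

/-!
# MP_db9399, THEOREM BIG: block EMBB (helper85): embedding into a near-regular graph
-/

set_option autoImplicit false

namespace Pool.Agent.Work.MP_db9399_bg.helper85

open Finset Classical
open Pool.Agent.Work.MP_db9399_all (nb)
open Pool.Agent.Work.MP_db9399_mad (EG)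

universe u v

section basic
variable {V : Type u} {W : Type v} [Fintype V] [Fintype W]

lemma sum_split (T : Finset (V ⊕ W)) (f : V ⊕ W → ℝ) :
    ∑ t ∈ T, f t = ∑ v ∈ T.toLeft, f (Sum.inl v) + ∑ w ∈ T.toRight, f (Sum.inr w) := by
  conv_lhs => rw [← Finset.toLeft_disjSum_toRight (u := T)]
  rw [Finset.sum_disjSum]

/-- private neighbours -/
noncomputable def pv (R : V → W → Prop) (v : V) : Finset W := univ.filter (fun w => R v w)

lemma card_inl (G : SimpleGraph V) (K : SimpleGraph W) (R : V → W → Prop) (v : V)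
    (S : Finset (V ⊕ W)) : (nb (EG G K R) (Sum.inl v) \ S).card =
      (nb G v \ S.toLeft).card + (pv R v \ S.toRight).card := by
  have h : nb (EG G K R) (Sum.inl v) \ S =
      (nb G v \ S.toLeft).disjSum (pv R v \ S.toRight) := by
    ext x
    rcases x with x | x
    · simp [nb, pv, EG]
    · simp [nb, pv, EG]
  rw [h, card_disjSum]

lemma card_inr (G : SimpleGraph V) (K : SimpleGraph W) (R : V → W → Prop) (w : W)
    (S : Finset (V ⊕ W)) : (nb (EG G K R) (Sum.inr w) \ S).card =
      ((univ.filter (fun v => R v w)) \ S.toLeft).card + (nb K w \ S.toRight).card := by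
  have h : nb (EG G K R) (Sum.inr w) \ S =
      ((univ.filter (fun v => R v w)) \ S.toLeft).disjSum (nb K w \ S.toRight) := by
    ext x
    rcases x with x | x
    · simp [nb, EG]
    · simp [nb, EG]
  rw [h, card_disjSum]

lemma card_sdiff_real {α : Type*} (X S : Finset α) :
    ((X \ S).card : ℝ) = X.card - ((X ∩ S).card : ℝ) := by
  have h := Finset.card_sdiff_add_card_inter X S
  have h' : ((X \ S).card : ℝ) + ((X ∩ S).card : ℝ) = X.card := by exact_mod_cast h
  linarith

lemma dc (K : SimpleGraph V) (A B : Finset V) :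
    ∑ w ∈ A, ((nb K w ∩ B).card : ℝ) = ∑ w ∈ B, ((nb K w ∩ A).card : ℝ) := by
  have h : ∀ (w : V) (C : Finset V), ((nb K w ∩ C).card : ℝ) =
      ∑ x ∈ C, if K.Adj w x then (1 : ℝ) else 0 := by
    intro w C
    have : nb K w ∩ C = C.filter (fun x => K.Adj w x) := by
      ext x; simp [nb, and_comm]
    rw [this, ← Finset.sum_filter]
    simp
  simp only [h]
  rw [Finset.sum_comm]
  simp only [K.adj_comm]

lemma inter_le (K : SimpleGraph V) {d : ℕ} (hd : ∀ v, (nb K v).card ≤ d) (A B : Finset V) :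
    ∑ w ∈ A, ((nb K w ∩ B).card : ℝ) ≤ d * B.card := by
  rw [dc]
  calc ∑ w ∈ B, ((nb K w ∩ A).card : ℝ) ≤ ∑ w ∈ B, (d : ℝ) := by
        apply Finset.sum_le_sum
        intro w _
        exact_mod_cast (Finset.card_le_card Finset.inter_subset_left).trans (hd w)
    _ = d * B.card := by rw [Finset.sum_const, nsmul_eq_mul, mul_comm]

lemma priv (R : V → W → Prop) (hR : ∀ w a b, R a w → R b w → a = b) (A : Finset V)
    (B : Finset W) : ∑ v ∈ A, ((pv R v ∩ B).card : ℝ) ≤ B.card := by
  have h : (A.biUnion fun v => pv R v ∩ B).card = ∑ v ∈ A, (pv R v ∩ B).card := by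
    apply Finset.card_biUnion
    intro a _ b _ hab
    rw [Function.onFun, Finset.disjoint_left]
    intro w hw hw'
    simp only [pv, mem_inter, mem_filter, mem_univ, true_and] at hw hw'
    exact hab (hR w a b hw.1 hw'.1)
  have h2 : (A.biUnion fun v => pv R v ∩ B).card ≤ B.card := by
    apply Finset.card_le_card
    intro w hw
    simp only [mem_biUnion, mem_inter] at hw
    obtain ⟨a, _, _, h⟩ := hw
    exact h
  rw [h] at h2
  exact_mod_cast h2

lemma card_nb (K : SimpleGraph V) [DecidableRel K.Adj] (v : V) : (nb K v).card = K.degree v := by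
  rw [← SimpleGraph.card_neighborFinset_eq_degree]
  congr 1
  ext w
  simp [nb]

lemma ie_eq (K : SimpleGraph V) [DecidableRel K.Adj] (A B : Finset V) :
    ((K.interedges A B).card : ℝ) = ∑ a ∈ A, ((nb K a ∩ B).card : ℝ) := by
  have h : (K.interedges A B).card = ∑ a ∈ A, (nb K a ∩ B).card := by
    rw [SimpleGraph.interedges_def, card_filter, sum_product]
    refine sum_congr rfl fun a _ => ?_
    rw [← card_filter]
    congr 1
    ext w
    simp [nb, and_comm]
  rw [h]
  push_cast
  rfl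

/-- light vertices have many private neighbours outside of any set -/
lemma light (G : SimpleGraph V) (R : V → W → Prop) (hR : ∀ w a b, R a w → R b w → a = b)
    {g : ℝ} {d : ℕ} (hp : ∀ v, (pv R v).card + (nb G v).card = d) (A : Finset V)
    (hA : ∀ v ∈ A, ¬ (1 - g) * d ≤ ((nb G v).card : ℝ)) (B : Finset W) :
    g * d * A.card - B.card ≤ ∑ v ∈ A, ((pv R v \ B).card : ℝ) := by
  have h1 : ∑ v ∈ A, ((pv R v \ B).card : ℝ) =
      ∑ v ∈ A, ((pv R v).card : ℝ) - ∑ v ∈ A, ((pv R v ∩ B).card : ℝ) := by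
    rw [← Finset.sum_sub_distrib]
    exact Finset.sum_congr rfl fun v _ => card_sdiff_real _ _
  have h2 : g * d * A.card ≤ ∑ v ∈ A, ((pv R v).card : ℝ) := by
    calc g * d * A.card = ∑ v ∈ A, (g * d) := by rw [Finset.sum_const, nsmul_eq_mul]; ring
      _ ≤ _ := by
        apply Finset.sum_le_sum
        intro v hv
        have h3 := hA v hv
        have h4 : ((pv R v).card : ℝ) + (nb G v).card = d := by exact_mod_cast hp v
        push Not at h3
        linarith
  have h3 := priv R hR A B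
  linarith

/-- the expander part -/
lemma heavyW (K : SimpleGraph W) {d : ℕ} (hK : ∀ w, d ≤ (nb K w).card + 10) (B S : Finset W) :
    ((d : ℝ) - 10) * B.card - ∑ w ∈ B, ((nb K w ∩ S).card : ℝ) ≤
      ∑ w ∈ B, ((nb K w \ S).card : ℝ) := by
  have h1 : ∑ w ∈ B, ((nb K w \ S).card : ℝ) =
      ∑ w ∈ B, ((nb K w).card : ℝ) - ∑ w ∈ B, ((nb K w ∩ S).card : ℝ) := by
    rw [← Finset.sum_sub_distrib]
    exact Finset.sum_congr rfl fun v _ => card_sdiff_real _ _
  have h2 : ((d : ℝ) - 10) * B.card ≤ ∑ w ∈ B, ((nb K w).card : ℝ) := by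
    calc ((d : ℝ) - 10) * B.card = ∑ w ∈ B, ((d : ℝ) - 10) := by
          rw [Finset.sum_const, nsmul_eq_mul]; ring
      _ ≤ _ := by
        apply Finset.sum_le_sum
        intro w _
        have h4 : (d : ℝ) ≤ (nb K w).card + 10 := by exact_mod_cast hK w
        linarith
  linarith

end basic

section main
variable {V : Type u} {W : Type v} [Fintype V] [Fintype W]

/-- the sum over the out-edges splits -/
lemma out_ge (G : SimpleGraph V) (K : SimpleGraph W) (R : V → W → Prop) (T S : Finset (V ⊕ W)) :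
    ∑ v ∈ T.toLeft, ((nb G v \ S.toLeft).card : ℝ) + ∑ v ∈ T.toLeft, ((pv R v \ S.toRight).card : ℝ) +
      ∑ w ∈ T.toRight, ((nb K w \ S.toRight).card : ℝ) ≤
      ∑ t ∈ T, ((nb (EG G K R) t \ S).card : ℝ) := by
  rw [sum_split]
  simp only [card_inl, card_inr]
  push_cast
  rw [Finset.sum_add_distrib, Finset.sum_add_distrib]
  have : 0 ≤ ∑ w ∈ T.toRight, ((((univ.filter (fun v => R v w)) \ S.toLeft).card : ℕ) : ℝ) :=
    Finset.sum_nonneg fun _ _ => Nat.cast_nonneg _
  linarith

lemma out_light_heavy (G : SimpleGraph V) (R : V → W → Prop)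
    (hR : ∀ w a b, R a w → R b w → a = b) {g : ℝ} {d : ℕ}
    (hp : ∀ v, (pv R v).card + (nb G v).card = d) (A : Finset V) (B : Finset W) :
    g * d * (A.filter (fun v => ¬ (1 - g) * d ≤ ((nb G v).card : ℝ))).card - B.card ≤
      ∑ v ∈ A, ((pv R v \ B).card : ℝ) := by
  refine (light G R hR hp _ (fun v hv => (mem_filter.mp hv).2) B).trans ?_
  exact Finset.sum_le_sum_of_subset_of_nonneg (Finset.filter_subset _ _)
    fun _ _ _ => Nat.cast_nonneg _

theorem nsc_EG (G : SimpleGraph V) (K : SimpleGraph W) (R : V → W → Prop) {g g0 g' : ℝ} {d : ℕ}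
    (hg : 0 < g) (hg1 : g ≤ 1 / 10) (_hg0 : 0 < g0) (hg'g : g' ≤ g ^ 2 / 2)
    (hg'g0 : g' * d ≤ g0 * d - 11)
    (hR : ∀ w a b, R a w → R b w → a = b) (hG : ∀ v, (nb G v).card ≤ d)
    (hp : ∀ v, (pv R v).card + (nb G v).card = d) (hK : ∀ w, d ≤ (nb K w).card + 10)
    (hKE : ∀ A B : Finset W, 100 * A.card ≤ 51 * Fintype.card W →
      100 * B.card ≤ 51 * Fintype.card W →
      ∑ w ∈ A, ((nb K w ∩ B).card : ℝ) ≤ (1 - g0) * d * (((A.card : ℝ) + B.card) / 2))
    (hN : 5 * d ≤ Fintype.card W)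
    (hnsc : ∀ C : Finset V, (∀ v ∈ C, (1 - g) * d ≤ ((nb G v).card : ℝ)) →
        (C.card : ℝ) ≤ (2 + g) * d → g * d * C.card ≤ ∑ v ∈ C, ((nb G v \ C).card : ℝ))
    (C : Finset (V ⊕ W)) (hC : (C.card : ℝ) ≤ (2 + g') * d) :
    g' * d * C.card ≤ ∑ t ∈ C, ((nb (EG G K R) t \ C).card : ℝ) := by
  have hd0 : (0 : ℝ) ≤ d := Nat.cast_nonneg _
  have hcard : (C.toLeft.card : ℝ) + C.toRight.card = C.card := by
    exact_mod_cast Finset.card_toLeft_add_card_toRight (u := C)
  set A := C.toLeft with hA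
  set B := C.toRight with hB
  set Al := A.filter (fun v => ¬ (1 - g) * d ≤ ((nb G v).card : ℝ)) with hAl
  set Ah := A.filter (fun v => (1 - g) * d ≤ ((nb G v).card : ℝ)) with hAh
  have hAc : (Ah.card : ℝ) + Al.card = A.card := by
    exact_mod_cast Finset.card_filter_add_card_filter_not (s := A)
      (fun v => (1 - g) * d ≤ ((nb G v).card : ℝ))
  have hg'2 : g' ≤ g := hg'g.trans (by nlinarith)
  have hA0 : (0 : ℝ) ≤ Ah.card := Nat.cast_nonneg _
  have hA1 : (0 : ℝ) ≤ Al.card := Nat.cast_nonneg _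
  have hB0 : (0 : ℝ) ≤ B.card := Nat.cast_nonneg _
  have hCd : (2 + g') * (d : ℝ) ≤ (2 + g) * d := mul_le_mul_of_nonneg_right (by linarith) hd0
  -- (i)
  have h1 := out_light_heavy G R hR (g := g) hp A B
  rw [← hAl] at h1
  -- (ii)
  have hBW : 100 * B.card ≤ 51 * Fintype.card W := by
    have h3 : (B.card : ℝ) ≤ (2 + g) * d := by linarith
    have h4 : (B.card : ℝ) ≤ 21 / 10 * d := h3.trans (mul_le_mul_of_nonneg_right (by linarith) hd0)
    have h5 : (5 : ℝ) * d ≤ Fintype.card W := by exact_mod_cast hN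
    have h6 : (100 : ℝ) * B.card ≤ 51 * Fintype.card W := by linarith
    exact_mod_cast h6
  have h2 := heavyW K hK B B
  have h3 := hKE B B hBW hBW
  -- (iii)
  have h4 : g * d * Ah.card - d * Al.card ≤ ∑ v ∈ A, ((nb G v \ A).card : ℝ) := by
    have h5 := hnsc Ah (fun v hv => (mem_filter.mp hv).2) (by linarith)
    have h6 := inter_le G hG Ah Al
    calc g * d * Ah.card - d * Al.card
        ≤ ∑ v ∈ Ah, ((nb G v \ Ah).card : ℝ) - ∑ v ∈ Ah, ((nb G v ∩ Al).card : ℝ) := by linarith
      _ = ∑ v ∈ Ah, (((nb G v \ Ah).card : ℝ) - ((nb G v ∩ Al).card : ℝ)) := by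
          rw [Finset.sum_sub_distrib]
      _ ≤ ∑ v ∈ Ah, ((nb G v \ A).card : ℝ) := by
          apply Finset.sum_le_sum
          intro v _
          have h7 : nb G v \ Ah ⊆ (nb G v \ A) ∪ (nb G v ∩ Al) := by
            intro x hx
            rw [mem_sdiff] at hx
            rw [mem_union, mem_sdiff, mem_inter]
            by_cases hxA : x ∈ A
            · right
              refine ⟨hx.1, ?_⟩
              rw [hAl, mem_filter]
              refine ⟨hxA, fun hcon => hx.2 ?_⟩
              rw [hAh, mem_filter]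
              exact ⟨hxA, hcon⟩
            · exact Or.inl ⟨hx.1, hxA⟩
          have h8 : (nb G v \ Ah).card ≤ (nb G v \ A).card + (nb G v ∩ Al).card :=
            (Finset.card_le_card h7).trans (Finset.card_union_le _ _)
          have h9 : ((nb G v \ Ah).card : ℝ) ≤ (nb G v \ A).card + (nb G v ∩ Al).card := by
            exact_mod_cast h8
          linarith
      _ ≤ _ := Finset.sum_le_sum_of_subset_of_nonneg (Finset.filter_subset _ _)
            fun _ _ _ => Nat.cast_nonneg _
  have h5 : 0 ≤ ∑ v ∈ A, ((nb G v \ A).card : ℝ) :=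
    Finset.sum_nonneg fun _ _ => Nat.cast_nonneg _
  have h6 : g / 2 * (g * d * Ah.card - d * Al.card) ≤ ∑ v ∈ A, ((nb G v \ A).card : ℝ) := by
    have h7 := mul_le_mul_of_nonneg_left h4 (by positivity : 0 ≤ g / 2)
    have h8 : g / 2 * ∑ v ∈ A, ((nb G v \ A).card : ℝ) ≤ 1 * ∑ v ∈ A, ((nb G v \ A).card : ℝ) :=
      mul_le_mul_of_nonneg_right (by linarith) h5
    linarith
  refine le_trans ?_ (out_ge G K R C C)
  rw [← hA, ← hB]
  have h10 : g' * d * C.card = g' * (d * Ah.card) + g' * (d * Al.card) + g' * d * B.card := by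
    rw [← hcard, ← hAc]; ring
  have h11 : g' * (d * Ah.card) ≤ g ^ 2 / 2 * (d * Ah.card) :=
    mul_le_mul_of_nonneg_right hg'g (by positivity)
  have h12 : g' * (d * Al.card) ≤ g / 2 * (d * Al.card) :=
    mul_le_mul_of_nonneg_right (hg'g.trans (by nlinarith)) (by positivity)
  have h13 : g' * d * B.card ≤ (g0 * d - 11) * B.card := mul_le_mul_of_nonneg_right hg'g0 hB0
  rw [h10]
  linarith only [h1, h2, h3, h6, h11, h12, h13]

theorem bip_EG (G : SimpleGraph V) (K : SimpleGraph W) (R : V → W → Prop) {g g0 γ g' : ℝ} {d : ℕ}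
    (hg : 0 < g) (hg1 : g ≤ 1 / 10) (hg0 : 0 < g0) (hg01 : g0 ≤ 1) (hγ0 : 0 < γ) (hγg : γ ≤ g)
    (hγg0 : γ ≤ g0 / 2) (hg' : g' = γ * g / 20) (hd1 : 16 < g * γ * d) (hd2 : 40 ≤ g0 * d)
    (hd3 : 1000 ≤ d)
    (hR : ∀ w a b, R a w → R b w → a = b)
    (hp : ∀ v, (pv R v).card + (nb G v).card = d) (hK : ∀ w, d ≤ (nb K w).card + 10)
    (hK2 : ∀ w, (nb K w).card ≤ d)
    (hKE : ∀ A B : Finset W, 100 * A.card ≤ 51 * Fintype.card W →
      100 * B.card ≤ 51 * Fintype.card W →
      ∑ w ∈ A, ((nb K w ∩ B).card : ℝ) ≤ (1 - g0) * d * (((A.card : ℝ) + B.card) / 2))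
    (hN : 1000 * Fintype.card V ≤ Fintype.card W)
    (hbip : ∀ S T : Finset V, Disjoint S T → (∀ t ∈ T, (1 - g) * d ≤ ((nb G t).card : ℝ)) →
        (S.card : ℝ) ≤ (1 + g) * T.card → g * d * T.card ≤ ∑ t ∈ T, ((nb G t \ S).card : ℝ))
    (S T : Finset (V ⊕ W)) (hST : Disjoint S T) (hc : (S.card : ℝ) ≤ (1 + g') * T.card) :
    g' * d * T.card ≤ ∑ t ∈ T, ((nb (EG G K R) t \ S).card : ℝ) := by
  have hd0 : (0 : ℝ) ≤ d := Nat.cast_nonneg _
  have hd3' : (1000 : ℝ) ≤ d := by exact_mod_cast hd3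
  have hg'0 : 0 < g' := by rw [hg']; positivity
  have hg'1 : g' ≤ 1 / 2000 := by rw [hg']; nlinarith
  have hcT : (T.toLeft.card : ℝ) + T.toRight.card = T.card := by
    exact_mod_cast Finset.card_toLeft_add_card_toRight (u := T)
  have hcS : (S.toLeft.card : ℝ) + S.toRight.card = S.card := by
    exact_mod_cast Finset.card_toLeft_add_card_toRight (u := S)
  have hdL : Disjoint S.toLeft T.toLeft := by
    rw [Finset.disjoint_left] at hST ⊢
    intro x hx hx'
    exact hST (Finset.mem_toLeft.mp hx) (Finset.mem_toLeft.mp hx')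
  have hdR : Disjoint S.toRight T.toRight := by
    rw [Finset.disjoint_left] at hST ⊢
    intro x hx hx'
    exact hST (Finset.mem_toRight.mp hx) (Finset.mem_toRight.mp hx')
  have hSTW : (S.toRight.card : ℝ) + T.toRight.card ≤ Fintype.card W := by
    have := Finset.card_le_univ (S.toRight ∪ T.toRight)
    rw [Finset.card_union_of_disjoint hdR] at this
    exact_mod_cast this
  have hTV : (T.toLeft.card : ℝ) ≤ Fintype.card V := by
    exact_mod_cast Finset.card_le_univ T.toLeft
  have hN' : 1000 * (Fintype.card V : ℝ) ≤ Fintype.card W := by exact_mod_cast hN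
  have hV0 : (0 : ℝ) ≤ Fintype.card V := Nat.cast_nonneg _
  set A := T.toLeft with hA
  set B := T.toRight with hB
  set A' := S.toLeft with hA'
  set B' := S.toRight with hB'
  set Al := A.filter (fun v => ¬ (1 - g) * d ≤ ((nb G v).card : ℝ)) with hAl
  set Ah := A.filter (fun v => (1 - g) * d ≤ ((nb G v).card : ℝ)) with hAh
  have hAc : (Ah.card : ℝ) + Al.card = A.card := by
    exact_mod_cast Finset.card_filter_add_card_filter_not (s := A)
      (fun v => (1 - g) * d ≤ ((nb G v).card : ℝ))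
  have hA0 : (0 : ℝ) ≤ Ah.card := Nat.cast_nonneg _
  have hA1 : (0 : ℝ) ≤ Al.card := Nat.cast_nonneg _
  have hB0 : (0 : ℝ) ≤ B.card := Nat.cast_nonneg _
  have hA'0 : (0 : ℝ) ≤ A'.card := Nat.cast_nonneg _
  have hB'0 : (0 : ℝ) ≤ B'.card := Nat.cast_nonneg _
  have hT0 : (0 : ℝ) ≤ T.card := Nat.cast_nonneg _
  have hout := out_ge G K R T S
  rw [← hA, ← hB, ← hA', ← hB'] at hout
  have e1 : 0 ≤ ∑ v ∈ A, ((nb G v \ A').card : ℝ) :=
    Finset.sum_nonneg fun _ _ => Nat.cast_nonneg _
  have e2 : 0 ≤ ∑ v ∈ A, ((pv R v \ B').card : ℝ) :=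
    Finset.sum_nonneg fun _ _ => Nat.cast_nonneg _
  have e3 : 0 ≤ ∑ w ∈ B, ((nb K w \ B').card : ℝ) :=
    Finset.sum_nonneg fun _ _ => Nat.cast_nonneg _
  have h2 := heavyW K hK B B'
  by_cases hBbig : 51 * Fintype.card W < 100 * B.card
  · -- many vertices of `W` in `T`
    have h3 := inter_le K hK2 B B'
    have h4 : (51 : ℝ) * Fintype.card W < 100 * B.card := by exact_mod_cast hBbig
    have h5 : g' * d * T.card ≤ 1 / 2000 * (d * (1001 / 1000 * Fintype.card W)) := by
      have h6 : (T.card : ℝ) ≤ 1001 / 1000 * Fintype.card W := by linarith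
      calc g' * d * T.card = g' * (d * T.card) := by ring
        _ ≤ 1 / 2000 * (d * T.card) := mul_le_mul_of_nonneg_right hg'1 (by positivity)
        _ ≤ _ := by
          apply mul_le_mul_of_nonneg_left _ (by norm_num)
          exact mul_le_mul_of_nonneg_left h6 hd0
    have h6 : (d - 10 : ℝ) * (51 * Fintype.card W) ≤ (d - 10 : ℝ) * (100 * B.card) :=
      mul_le_mul_of_nonneg_left h4.le (by linarith)
    have h7 : (d : ℝ) * (100 * B'.card) ≤ d * (49 * Fintype.card W) :=
      mul_le_mul_of_nonneg_left (by linarith) hd0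
    have h8 : 1000 * (Fintype.card W : ℝ) ≤ d * Fintype.card W :=
      mul_le_mul_of_nonneg_right hd3' (Nat.cast_nonneg _)
    linarith only [hout, e1, e2, h2, h3, h5, h6, h7, h8]
  push Not at hBbig
  have hB'small : 100 * B'.card ≤ 51 * Fintype.card W := by
    by_contra hcon
    push Not at hcon
    have h3 : (51 : ℝ) * Fintype.card W < 100 * B'.card := by exact_mod_cast hcon
    have h4 : (T.card : ℝ) ≤ 1 / 1000 * Fintype.card W + 49 / 100 * Fintype.card W := by linarith
    have h5 : (1 + g') * (T.card : ℝ) ≤ 2001 / 2000 * T.card :=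
      mul_le_mul_of_nonneg_right (by linarith) hT0
    have h6 : (0 : ℝ) ≤ Fintype.card W := Nat.cast_nonneg _
    linarith only [h3, h4, h5, hc, hcS, hA'0, h6]
  have h3 := hKE B B' hBbig hB'small
  by_contra hcon
  push Not at hcon
  have hlt := lt_of_le_of_lt hout hcon
  have hTpos : (0 : ℝ) < T.card := by
    rcases hT0.eq_or_lt with h | h
    · rw [← h] at hcon
      have : 0 ≤ ∑ t ∈ T, ((nb (EG G K R) t \ S).card : ℝ) :=
        Finset.sum_nonneg fun _ _ => Nat.cast_nonneg _
      simp at hcon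
      linarith
    · exact h
  -- (1)
  have h1 := out_light_heavy G R hR (g := g) hp A B'
  rw [← hAl] at h1
  have i1 : g * (d * Al.card) ≤ B'.card + g' * d * T.card := by
    linarith only [h1, hlt, e1, e3]
  -- (3)
  have i3 : (1 + g0 / 2) * (B.card : ℝ) ≤ B'.card + 2 * g' * T.card := by
    have j1 : (d - 10 : ℝ) * B.card - (1 - g0) * d * (((B.card : ℝ) + B'.card) / 2) ≤
        g' * d * T.card := by linarith only [h2, h3, hlt, e1, e2]
    have j2 : (40 : ℝ) * B.card ≤ g0 * d * B.card := mul_le_mul_of_nonneg_right hd2 hB0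
    have j3 : 0 ≤ g0 * d * (B'.card : ℝ) := by positivity
    have j4 : (d : ℝ) * ((1 + g0 / 2) * (B.card : ℝ)) ≤ d * (B'.card + 2 * g' * T.card) := by
      linarith only [j1, j2, j3]
    exact le_of_mul_le_mul_left j4 (by linarith)
  -- (2)
  have i2 : g * ((1 + g) * (Ah.card : ℝ)) ≤ g * A'.card + 2 * g' * T.card := by
    by_cases hcase : (A'.card : ℝ) ≤ (1 + g) * Ah.card
    · have j1 := hbip A' Ah (hdL.mono_right (Finset.filter_subset _ _))
        (fun v hv => (mem_filter.mp hv).2) hcase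
      have j2 : ∑ t ∈ Ah, ((nb G t \ A').card : ℝ) ≤ ∑ v ∈ A, ((nb G v \ A').card : ℝ) :=
        Finset.sum_le_sum_of_subset_of_nonneg (Finset.filter_subset _ _)
          fun _ _ _ => Nat.cast_nonneg _
      have j3 : (d : ℝ) * (g * Ah.card) ≤ d * (g' * T.card) := by
        linarith only [j1, j2, hlt, e2, e3]
      have j4 : g * (Ah.card : ℝ) ≤ g' * T.card := le_of_mul_le_mul_left j3 (by linarith)
      have j5 : (1 + g) * (g * (Ah.card : ℝ)) ≤ 2 * (g' * T.card) :=
        mul_le_mul (by linarith) j4 (by positivity) (by norm_num)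
      have j6 : 0 ≤ g * (A'.card : ℝ) := by positivity
      linarith only [j5, j6]
    · push Not at hcase
      have j1 := mul_le_mul_of_nonneg_left hcase.le hg.le
      have j2 : 0 ≤ 2 * g' * (T.card : ℝ) := by positivity
      linarith only [j1, j2]
  -- combination
  set τ := (T.card : ℝ) with hτ
  set s := (S.card : ℝ) with hs
  have k0 : s ≤ 2 * τ := hc.trans (mul_le_mul_of_nonneg_right (by linarith) hT0)
  have k1 : g * (Al.card : ℝ) * d ≤ 2 * τ + g' * d * τ := by
    linarith only [i1, k0, hcS, hA'0]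
  -- multiply everything by `g * d`
  have k2 : g * ((1 + γ) * Ah.card) ≤ g * ((1 + g) * Ah.card) := by
    apply mul_le_mul_of_nonneg_left _ hg.le
    exact mul_le_mul_of_nonneg_right (by linarith) hA0
  have k3 : g * ((1 + γ) * B.card) ≤ g * (B'.card + 2 * g' * τ) := by
    apply mul_le_mul_of_nonneg_left _ hg.le
    refine le_trans ?_ i3
    exact mul_le_mul_of_nonneg_right (by linarith) hB0
  have k4 : g * ((1 + γ) * Al.card) * d ≤ 2 * (2 * τ + g' * d * τ) := by
    have : (1 + γ) * (g * (Al.card : ℝ) * d) ≤ 2 * (2 * τ + g' * d * τ) := by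
      apply mul_le_mul (by linarith) k1 (by positivity) (by norm_num)
    linarith only [this]
  have k5 : g * ((1 + γ) * τ) * d ≤ g * s * d + (2 * g' * τ + 2 * g * g' * τ) * d +
      2 * (2 * τ + g' * d * τ) := by
    have e : g * ((1 + γ) * τ) * d = g * ((1 + γ) * Ah.card) * d + g * ((1 + γ) * B.card) * d +
        g * ((1 + γ) * Al.card) * d := by
      rw [← hcT, ← hAc]; ring
    have m1 := mul_le_mul_of_nonneg_right (k2.trans i2) hd0
    have m2 := mul_le_mul_of_nonneg_right k3 hd0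
    rw [e]
    have e' : g * s * d = g * A'.card * d + g * B'.card * d := by rw [← hcS]; ring
    rw [e']
    linarith only [m1, m2, k4]
  have k6 : g * s * d ≤ g * ((1 + g') * τ) * d := by
    apply mul_le_mul_of_nonneg_right _ hd0
    exact mul_le_mul_of_nonneg_left hc hg.le
  -- `g γ d τ ≤ (3 g g' + 4 g') d τ + 4 τ`
  have k7 : g * γ * d * τ ≤ (3 * g * g' + 4 * g') * d * τ + 4 * τ := by
    linarith only [k5, k6]
  have k8 : 16 * τ < g * γ * d * τ := mul_lt_mul_of_pos_right hd1 hTpos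
  have k9 : (3 * g * g' + 4 * g') * d * τ ≤ (43 / 10 * (γ * g / 20)) * d * τ := by
    apply mul_le_mul_of_nonneg_right _ hT0
    apply mul_le_mul_of_nonneg_right _ hd0
    rw [← hg']
    have : g * g' ≤ 1 / 10 * g' := mul_le_mul_of_nonneg_right hg1 hg'0.le
    linarith only [this]
  linarith only [k7, k8, k9, hTpos]

end main

theorem stmt_EXPANDER : Pool.Agent.Work.MP_db9399_mad.Stmt_EXPANDER :=
  Pool.Agent.Work.MP_db9399_mad.helper46.stmt_EXPD
    Pool.Agent.Work.MP_db9399_mad.helper46.stmt_GG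
    Pool.Agent.Work.MP_db9399_mad.helper75.stmt_LIFT
    Pool.Agent.Work.MP_db9399_mad.helper59.stmt_BLOW

/-- block **EMBB** -/
theorem stmt_EMBB : Stmt_EMBB.{u} := by
  intro g hg hg1
  obtain ⟨g0', hg0', hX⟩ := stmt_EXPANDER
  set g0 := min g0' 1 with hg0d
  have hg0 : 0 < g0 := lt_min hg0' one_pos
  have hg01 : g0 ≤ 1 := min_le_right _ _
  have hg0le : g0 ≤ g0' := min_le_left _ _
  set γ := min g (g0 / 2) with hγd
  have hγ0 : 0 < γ := lt_min hg (by positivity)
  have hγg : γ ≤ g := min_le_left _ _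
  have hγg0 : γ ≤ g0 / 2 := min_le_right _ _
  refine ⟨γ * g / 20, by positivity, by nlinarith, ?_⟩
  intro ε hε
  refine ⟨⌈10 / ε⌉₊ + ⌈40 / (g * γ)⌉₊ + 1000, ?_⟩
  intro V _ G d hd hG hbip hnsc
  have hdR : (0 : ℝ) ≤ d := Nat.cast_nonneg d
  have hd1 : 10 / ε ≤ (d : ℝ) := (Nat.le_ceil _).trans (by exact_mod_cast (by omega))
  have hd2 : 40 / (g * γ) ≤ (d : ℝ) := (Nat.le_ceil _).trans (by exact_mod_cast (by omega))
  have hd3 : 10 ≤ ε * d := by
    rw [div_le_iff₀ hε] at hd1; linarith
  have hd4 : 40 ≤ g * γ * d := by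
    rw [div_le_iff₀ (by positivity)] at hd2; linarith
  have hd5 : 1000 ≤ d := by omega
  have hd6 : g * γ * d ≤ g0 / 20 * d := by
    apply mul_le_mul_of_nonneg_right _ hdR
    nlinarith
  obtain ⟨W, _, K, hN, hK⟩ := hX d (1000 * Fintype.card V + Fintype.card V * d + 5 * d + 1)
    (by omega)
  obtain ⟨hK1, hK2⟩ := hK
  have hT : Fintype.card (Σ v : V, Fin (d - (nb G v).card)) ≤ Fintype.card W := by
    rw [Fintype.card_sigma]
    have h1 : ∑ v : V, Fintype.card (Fin (d - (nb G v).card)) ≤ ∑ v : V, d := by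
      apply Finset.sum_le_sum
      intro v _
      simp
    rw [Finset.sum_const, Finset.card_univ, smul_eq_mul] at h1
    have h2 : 0 ≤ 1000 * Fintype.card V := Nat.zero_le _
    omega
  obtain ⟨ι⟩ := Function.Embedding.nonempty_of_card_le hT
  have hR : ∀ w a b, (∃ i, ι ⟨a, i⟩ = w) → (∃ i, ι ⟨b, i⟩ = w) → a = b := by
    rintro w a b ⟨i, hi⟩ ⟨j, hj⟩
    have := ι.injective (hi.trans hj.symm)
    exact congrArg Sigma.fst this
  set R : V → W → Prop := fun v w => ∃ i, ι ⟨v, i⟩ = w with hRdef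
  have hN1 : 5 * d ≤ Fintype.card W := by
    have : 0 ≤ Fintype.card V * d := Nat.zero_le _
    omega
  have hN2 : 1000 * Fintype.card V ≤ Fintype.card W := by
    have : 0 ≤ Fintype.card V * d := Nat.zero_le _
    omega
  have hpv : ∀ v, (pv R v).card = d - (nb G v).card := by
    intro v
    have h1 : pv R v = (univ : Finset (Fin (d - (nb G v).card))).image (fun i => ι ⟨v, i⟩) := by
      ext w; simp [pv, hRdef]
    rw [h1, Finset.card_image_of_injective]
    · simp
    · intro i j hij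
      have := ι.injective hij
      simpa using this
  have hp : ∀ v, (pv R v).card + (nb G v).card = d := by
    intro v
    have h1 := hpv v
    have h2 := hG v
    omega
  have hKd : ∀ w, (nb K w).card + 1 ≤ d ∧ d ≤ (nb K w).card + 10 := by
    intro w
    rw [card_nb]
    exact hK1 w
  have hKE : ∀ A B : Finset W, 100 * A.card ≤ 51 * Fintype.card W →
      100 * B.card ≤ 51 * Fintype.card W →
      ∑ w ∈ A, ((nb K w ∩ B).card : ℝ) ≤ (1 - g0) * d * (((A.card : ℝ) + B.card) / 2) := by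
    intro A B h1 h2
    have h3 := hK2 A B h1 h2
    rw [ie_eq] at h3
    refine h3.trans ?_
    apply mul_le_mul_of_nonneg_right _ (by positivity)
    exact mul_le_mul_of_nonneg_right (by linarith) hdR
  have hw1 : ∀ w, (univ.filter (fun v => R v w)).card ≤ 1 := by
    intro w
    rw [Finset.card_le_one]
    intro a ha b hb
    rw [Finset.mem_filter] at ha hb
    exact hR w a b ha.2 hb.2
  have hel : (∅ : Finset (V ⊕ W)).toLeft = ∅ := by ext; simp
  have her : (∅ : Finset (V ⊕ W)).toRight = ∅ := by ext; simp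
  have hdl : ∀ v, (nb (EG G K R) (Sum.inl v)).card = (nb G v).card + (pv R v).card := by
    intro v
    have := card_inl G K R v ∅
    rw [hel, her] at this
    simpa using this
  have hdr : ∀ w, (nb (EG G K R) (Sum.inr w)).card =
      (univ.filter (fun v => R v w)).card + (nb K w).card := by
    intro w
    have := card_inr G K R w ∅
    rw [hel, her] at this
    simp only [Finset.sdiff_empty] at this
    refine this.trans ?_
    congr
  refine ⟨W, inferInstance, K, R, hR, ?_, ?_, ?_, ?_⟩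
  · rintro (v | w)
    · rw [hdl]; have := hp v; omega
    · rw [hdr]; have := hw1 w; have := hKd w; omega
  · rintro (v | w)
    · rw [hdl]
      have h1 : (nb G v).card + (pv R v).card = d := by have := hp v; omega
      rw [h1]
      nlinarith
    · rw [hdr]
      have h3 : (d : ℝ) ≤ (nb K w).card + 10 := by exact_mod_cast (hKd w).2
      push_cast
      have h4 : (0:ℝ) ≤ ((univ.filter (fun v => R v w)).card : ℝ) := Nat.cast_nonneg _
      nlinarith
  · intro S T hST hc
    have := bip_EG G K R hg hg1 hg0 hg01 hγ0 hγg hγg0 rfl (by linarith) (by linarith) hd5 hR hp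
      (fun w => (hKd w).2) (fun w => by have := (hKd w).1; omega) hKE hN2 hbip S T hST hc
    refine this.trans (le_of_eq (Finset.sum_congr rfl fun t _ => ?_))
    congr
    exact Subsingleton.elim _ _
  · intro C hC
    have h1 : γ * g / 20 * d ≤ g0 / 2 * d := by
      apply mul_le_mul_of_nonneg_right _ hdR
      nlinarith
    have := nsc_EG G K R hg hg1 hg0 (g' := γ * g / 20) (by nlinarith) (by linarith) hR hG hp
      (fun w => (hKd w).2) hKE hN1 hnsc C hC
    refine this.trans (le_of_eq (Finset.sum_congr rfl fun t _ => ?_))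
    congr
    exact Subsingleton.elim _ _

end Pool.Agent.Work.MP_db9399_bg.helper85
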